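import Mathlib

namespace Pool.Agent.Results.MP_03a7fb_al.HessianNilpotent

open MvPowerSeries Finsupp

/-- The Laplace operator `∑ i, D_i ^ 2` on `ℂ[[z_1, …, z_n]]`. -/
noncomputable def laplace {n : ℕ} (P : MvPowerSeries (Fin n) ℂ) : MvPowerSeries (Fin n) ℂ :=
  ∑ i : Fin n, pderiv ℂ i (pderiv ℂ i P)

/-- `P` is Hessian nilpotent: the matrix `(D_i D_j P)` is nilpotent. -/
def IsHessianNilpotent {n : ℕ} (P : MvPowerSeries (Fin n) ℂ) : Prop :=
  IsNilpotent (Matrix.of fun i j : Fin n => pderiv ℂ i (pderiv ℂ j P))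

/-- The power series `exp (z_1 + i z_2) = ∑ z_1 ^ a (i z_2) ^ b / (a! b!)` in the four variables
`z_1, z_2, z_3, z_4` (numbered `0, 1, 2, 3`). -/
noncomputable def expSeries : MvPowerSeries (Fin 4) ℂ := fun n =>
  if n 2 = 0 ∧ n 3 = 0 then
    Complex.I ^ (n 1) / (((n 0).factorial : ℂ) * ((n 1).factorial : ℂ)) else 0

/-- `u = z_1 + i z_2`. -/
noncomputable def u : MvPowerSeries (Fin 4) ℂ := X 0 + Complex.I • X 1
/-- `v = z_1 - i z_2`. -/
noncomputable def v : MvPowerSeries (Fin 4) ℂ := X 0 - Complex.I • X 1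
/-- `w = z_3 + i z_4`. -/
noncomputable def w : MvPowerSeries (Fin 4) ℂ := X 2 + Complex.I • X 3

/-- The power series
`P = (z_1 - i z_2) (z_3 + i z_4) ^ 2 + (exp (z_1 + i z_2) - 1 - (z_1 + i z_2)
  - (z_1 + i z_2) ^ 2 / 2)`. -/
noncomputable def P : MvPowerSeries (Fin 4) ℂ :=
  v * w ^ 2 + (expSeries - 1 - u - (1 / 2 : ℂ) • u ^ 2)

theorem coeff_exp (n : Fin 4 →₀ ℕ) : coeff n expSeries =
    if n 2 = 0 ∧ n 3 = 0 then
      Complex.I ^ (n 1) / (((n 0).factorial : ℂ) * ((n 1).factorial : ℂ)) else 0 := rfl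

theorem D0_exp : pderiv ℂ 0 expSeries = expSeries := by
  ext n
  rw [coeff_pderiv, coeff_exp, coeff_exp]
  have h0 : (n + (single 0 1 : Fin 4 →₀ ℕ)) 0 = n 0 + 1 := by simp
  have h1 : (n + (single 0 1 : Fin 4 →₀ ℕ)) 1 = n 1 := by simp
  have h2 : (n + (single 0 1 : Fin 4 →₀ ℕ)) 2 = n 2 := by simp
  have h3 : (n + (single 0 1 : Fin 4 →₀ ℕ)) 3 = n 3 := by simp
  rw [h0, h1, h2, h3]
  split_ifs with h
  · rw [Nat.factorial_succ]
    have : ((n 0 : ℂ) + 1) ≠ 0 := by exact_mod_cast Nat.succ_ne_zero (n 0)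
    have h4 : ((n 0).factorial : ℂ) ≠ 0 := by exact_mod_cast Nat.factorial_ne_zero _
    have h5 : ((n 1).factorial : ℂ) ≠ 0 := by exact_mod_cast Nat.factorial_ne_zero _
    push_cast
    field_simp
  · simp

theorem D1_exp : pderiv ℂ 1 expSeries = Complex.I • expSeries := by
  ext n
  rw [coeff_pderiv, coeff_exp, coeff_smul, coeff_exp]
  have h0 : (n + (single 1 1 : Fin 4 →₀ ℕ)) 0 = n 0 := by simp
  have h1 : (n + (single 1 1 : Fin 4 →₀ ℕ)) 1 = n 1 + 1 := by simp
  have h2 : (n + (single 1 1 : Fin 4 →₀ ℕ)) 2 = n 2 := by simp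
  have h3 : (n + (single 1 1 : Fin 4 →₀ ℕ)) 3 = n 3 := by simp
  rw [h0, h1, h2, h3]
  split_ifs with h
  · rw [Nat.factorial_succ]
    have : ((n 1 : ℂ) + 1) ≠ 0 := by exact_mod_cast Nat.succ_ne_zero (n 1)
    have h4 : ((n 0).factorial : ℂ) ≠ 0 := by exact_mod_cast Nat.factorial_ne_zero _
    have h5 : ((n 1).factorial : ℂ) ≠ 0 := by exact_mod_cast Nat.factorial_ne_zero _
    push_cast
    rw [pow_succ]
    field_simp
  · simp

theorem D2_exp : pderiv ℂ 2 expSeries = 0 := by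
  ext n
  rw [coeff_pderiv, coeff_exp]
  have h2 : (n + (single 2 1 : Fin 4 →₀ ℕ)) 2 = n 2 + 1 := by simp
  rw [h2]
  simp

theorem D3_exp : pderiv ℂ 3 expSeries = 0 := by
  ext n
  rw [coeff_pderiv, coeff_exp]
  have h2 : (n + (single 3 1 : Fin 4 →₀ ℕ)) 3 = n 3 + 1 := by simp
  rw [h2]
  simp

theorem D0_u : pderiv ℂ 0 u = 1 := by simp [u]
theorem D1_u : pderiv ℂ 1 u = Complex.I • 1 := by simp [u]
theorem D2_u : pderiv ℂ 2 u = 0 := by simp [u]
theorem D3_u : pderiv ℂ 3 u = 0 := by simp [u]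
theorem D0_v : pderiv ℂ 0 v = 1 := by simp [v]
theorem D1_v : pderiv ℂ 1 v = -(Complex.I • 1) := by simp [v]
theorem D2_v : pderiv ℂ 2 v = 0 := by simp [v]
theorem D3_v : pderiv ℂ 3 v = 0 := by simp [v]
theorem D0_w : pderiv ℂ 0 w = 0 := by simp [w]
theorem D1_w : pderiv ℂ 1 w = 0 := by simp [w]
theorem D2_w : pderiv ℂ 2 w = 1 := by simp [w]
theorem D3_w : pderiv ℂ 3 w = Complex.I • 1 := by simp [w]

theorem comm (i j : Fin 4) (f : MvPowerSeries (Fin 4) ℂ) :
    pderiv ℂ i (pderiv ℂ j f) = pderiv ℂ j (pderiv ℂ i f) := by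
  by_cases h : i = j
  · rw [h]
  ext n
  simp only [coeff_pderiv]
  have h1 : (n + (single i 1 : Fin 4 →₀ ℕ)) j = n j := by
    simp [Finsupp.single_apply, h]
  have h2 : (n + (single j 1 : Fin 4 →₀ ℕ)) i = n i := by
    simp [Finsupp.single_apply, Ne.symm h]
  rw [h1, h2, add_assoc, add_assoc, add_comm (single i 1)]
  ring

/-- `∂/∂u`. -/
noncomputable def du : Derivation ℂ (MvPowerSeries (Fin 4) ℂ) (MvPowerSeries (Fin 4) ℂ) :=
  (1 / 2 : ℂ) • (pderiv ℂ 0 - Complex.I • pderiv ℂ 1)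
/-- `∂/∂v`. -/
noncomputable def dv : Derivation ℂ (MvPowerSeries (Fin 4) ℂ) (MvPowerSeries (Fin 4) ℂ) :=
  (1 / 2 : ℂ) • (pderiv ℂ 0 + Complex.I • pderiv ℂ 1)
/-- `2 ∂/∂w̄`. -/
noncomputable def dw : Derivation ℂ (MvPowerSeries (Fin 4) ℂ) (MvPowerSeries (Fin 4) ℂ) :=
  pderiv ℂ 2 + Complex.I • pderiv ℂ 3
/-- `2 ∂/∂w`. -/
noncomputable def dw' : Derivation ℂ (MvPowerSeries (Fin 4) ℂ) (MvPowerSeries (Fin 4) ℂ) :=
  pderiv ℂ 2 - Complex.I • pderiv ℂ 3

theorem du_apply (f : MvPowerSeries (Fin 4) ℂ) :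
    du f = (1 / 2 : ℂ) • (pderiv ℂ 0 f - Complex.I • pderiv ℂ 1 f) := rfl
theorem dv_apply (f : MvPowerSeries (Fin 4) ℂ) :
    dv f = (1 / 2 : ℂ) • (pderiv ℂ 0 f + Complex.I • pderiv ℂ 1 f) := rfl
theorem dw_apply (f : MvPowerSeries (Fin 4) ℂ) :
    dw f = pderiv ℂ 2 f + Complex.I • pderiv ℂ 3 f := rfl
theorem dw'_apply (f : MvPowerSeries (Fin 4) ℂ) :
    dw' f = pderiv ℂ 2 f - Complex.I • pderiv ℂ 3 f := rfl

theorem dudv (f : MvPowerSeries (Fin 4) ℂ) : du (dv f) = dv (du f) := by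
  simp only [du_apply, dv_apply, Derivation.map_smul, map_sub, map_add, comm 1 0]
  module

theorem dwdu (f : MvPowerSeries (Fin 4) ℂ) : dw (du f) = du (dw f) := by
  simp only [du_apply, dw_apply, Derivation.map_smul, map_sub, map_add, comm 2 0, comm 3 0, comm 2 1,
    comm 3 1]
  module

theorem dwdv (f : MvPowerSeries (Fin 4) ℂ) : dw (dv f) = dv (dw f) := by
  simp only [dv_apply, dw_apply, Derivation.map_smul, map_sub, map_add, comm 2 0, comm 3 0, comm 2 1,
    comm 3 1]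
  module

theorem laplace_eq (f : MvPowerSeries (Fin 4) ℂ) :
    laplace f = (4 : ℂ) • du (dv f) + dw' (dw f) := by
  simp only [laplace, Fin.sum_univ_four, du_apply, dv_apply, dw_apply, dw'_apply, Derivation.map_smul,
    map_sub, map_add, comm 1 0, comm 3 2]
  have hI : ∀ g : MvPowerSeries (Fin 4) ℂ, Complex.I • Complex.I • g = -g := by
    intro g
    rw [smul_smul, Complex.I_mul_I, neg_one_smul]
  have hII : Complex.I ^ 2 = -1 := Complex.I_sq
  match_scalars <;> ring_nf <;> simp only [hII] <;> ring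

theorem iter (m : ℕ) (g : MvPowerSeries (Fin 4) ℂ) (hg : dw g = 0) :
    (laplace^[m]) g = (4 : ℂ) ^ m • (du^[m]) ((dv^[m]) g) := by
  have h1 : Function.Commute dw dv := fun f => dwdv f
  have h2 : Function.Commute dw du := fun f => dwdu f
  have h3 : Function.Commute dv du := fun f => (dudv f).symm
  have hz1 : ∀ k, (du^[k]) 0 = 0 := fun k => Function.iterate_fixed (map_zero du) k
  have hz2 : ∀ k, (dv^[k]) 0 = 0 := fun k => Function.iterate_fixed (map_zero dv) k
  induction m with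
  | zero => simp
  | succ m ih =>
    rw [Function.iterate_succ_apply', ih, laplace_eq]
    have h4 : dw ((du^[m]) ((dv^[m]) g)) = 0 := by
      rw [(h2.iterate_right m).eq, (h1.iterate_right m).eq, hg, hz2, hz1]
    have h5 : dv ((du^[m]) ((dv^[m]) g)) = (du^[m]) ((dv^[m + 1]) g) := by
      rw [(h3.iterate_right m).eq, Function.iterate_succ_apply' dv]
    rw [Derivation.map_smul dw, h4, smul_zero, map_zero, add_zero, Derivation.map_smul dv,
      Derivation.map_smul du, h5, Function.iterate_succ_apply' du, smul_smul, pow_succ, mul_comm]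

theorem du_u : du u = 1 := by
  rw [du_apply, D0_u, D1_u, smul_smul, Complex.I_mul_I]; module
theorem dv_u : dv u = 0 := by
  rw [dv_apply, D0_u, D1_u, smul_smul, Complex.I_mul_I]; module
theorem du_v : du v = 0 := by
  rw [du_apply, D0_v, D1_v, smul_neg, smul_smul, Complex.I_mul_I]; module
theorem dv_v : dv v = 1 := by
  rw [dv_apply, D0_v, D1_v, smul_neg, smul_smul, Complex.I_mul_I]; module
theorem du_w : du w = 0 := by rw [du_apply, D0_w, D1_w]; simp
theorem dv_w : dv w = 0 := by rw [dv_apply, D0_w, D1_w]; simp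
theorem dw_w : dw w = 0 := by
  rw [dw_apply, D2_w, D3_w, smul_smul, Complex.I_mul_I]; module
theorem dw_u : dw u = 0 := by rw [dw_apply, D2_u, D3_u]; simp
theorem dw_v : dw v = 0 := by rw [dw_apply, D2_v, D3_v]; simp
theorem dw_exp : dw expSeries = 0 := by rw [dw_apply, D2_exp, D3_exp]; simp
theorem du_exp : du expSeries = expSeries := by
  rw [du_apply, D0_exp, D1_exp, smul_smul, Complex.I_mul_I]; module
theorem dv_exp : dv expSeries = 0 := by
  rw [dv_apply, D0_exp, D1_exp, smul_smul, Complex.I_mul_I]; module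

theorem dw_P : dw P = 0 := by
  simp [P, Derivation.leibniz_pow, dw_v, dw_w, dw_u, dw_exp]

theorem dv_P : dv P = w ^ 2 := by
  simp [P, Derivation.leibniz_pow, dv_v, dv_w, dv_u, dv_exp]

theorem half_two (g : MvPowerSeries (Fin 4) ℂ) : (2⁻¹ : ℂ) • (2 * g) = g := by
  rw [two_mul]; module

theorem du_P : du P = expSeries - 1 - u := by
  simp [P, Derivation.leibniz_pow, du_v, du_w, du_u, du_exp, half_two]

theorem du3_P : (du^[3]) P = expSeries := by
  show du (du (du P)) = expSeries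
  rw [du_P]
  simp [du_exp, du_u]

theorem dum_P (m : ℕ) (hm : 3 ≤ m) : (du^[m]) P = expSeries := by
  obtain ⟨k, rfl⟩ := Nat.exists_eq_add_of_le' hm
  rw [Function.iterate_add_apply, du3_P]
  exact Function.iterate_fixed du_exp k

theorem dv_pow (j : ℕ) : ∀ l : ℕ, ∃ c : ℕ, c ≠ 0 ∧
    (dv^[j]) (P ^ (j + l)) = (c : ℂ) • (w ^ (2 * j) * P ^ l) := by
  induction j with
  | zero => intro l; exact ⟨1, one_ne_zero, by simp⟩
  | succ j ih =>
    intro l
    obtain ⟨c, hc, h⟩ := ih (l + 1)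
    refine ⟨c * (l + 1), Nat.mul_ne_zero hc (Nat.succ_ne_zero l), ?_⟩
    rw [Function.iterate_succ_apply', show j + 1 + l = j + (l + 1) by ring, h]
    have hw : dv (w ^ (2 * j)) = 0 := by simp [Derivation.leibniz_pow, dv_w]
    rw [Derivation.map_smul, Derivation.leibniz, hw, Derivation.leibniz_pow, dv_P]
    simp only [smul_eq_mul, nsmul_eq_mul, mul_zero, add_zero, Nat.add_sub_cancel]
    rw [show w ^ (2 * (j + 1)) = w ^ (2 * j) * w ^ 2 by ring]
    push_cast
    rw [mul_smul]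
    congr 1
    have h1 : ((l : ℂ) + 1) • (w ^ (2 * j) * w ^ 2 * P ^ l) =
      ((l : MvPowerSeries (Fin 4) ℂ) + 1) * (w ^ (2 * j) * w ^ 2 * P ^ l) := by
      rw [add_smul, one_smul, add_mul, one_mul]
      congr 1
      rw [Nat.cast_smul_eq_nsmul, nsmul_eq_mul]
    rw [h1]
    ring

theorem du_mul_iter (a b : MvPowerSeries (Fin 4) ℂ) (ha : du a = 0) (m : ℕ) :
    (du^[m]) (a * b) = a * (du^[m]) b := by
  induction m with
  | zero => rfl
  | succ m ih =>
    rw [Function.iterate_succ_apply', ih, Function.iterate_succ_apply', Derivation.leibniz, ha]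
    simp

theorem du_smul_iter (c : ℂ) (b : MvPowerSeries (Fin 4) ℂ) (m : ℕ) :
    (du^[m]) (c • b) = c • (du^[m]) b := by
  induction m with
  | zero => rfl
  | succ m ih =>
    rw [Function.iterate_succ_apply', ih, Function.iterate_succ_apply', Derivation.map_smul]

theorem exp_ne_zero : expSeries ≠ 0 := by
  intro h
  have h1 := coeff_exp 0
  rw [h] at h1
  simp at h1

theorem w_ne_zero : w ≠ 0 := by
  intro h
  have := D2_w
  rw [h, map_zero] at this
  exact zero_ne_one this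

theorem nonvanishing (m : ℕ) (hm : 3 ≤ m) : (laplace^[m]) (P ^ (m + 1)) ≠ 0 := by
  have h1 : dw (P ^ (m + 1)) = 0 := by simp [Derivation.leibniz_pow, dw_P]
  rw [iter m _ h1]
  obtain ⟨c, hc, h⟩ := dv_pow m 1
  have h2 : du (w ^ (2 * m)) = 0 := by simp [Derivation.leibniz_pow, du_w]
  rw [h, pow_one, du_smul_iter, du_mul_iter _ _ h2, dum_P m hm]
  refine smul_ne_zero (pow_ne_zero _ (by norm_num)) (smul_ne_zero (by exact_mod_cast hc) ?_)
  exact mul_ne_zero (pow_ne_zero _ w_ne_zero) exp_ne_zero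

theorem D0_P : pderiv ℂ 0 P = w ^ 2 + (expSeries - 1 - u) := by
  simp [P, Derivation.leibniz_pow, D0_v, D0_w, D0_u, D0_exp, half_two]

theorem D1_P : pderiv ℂ 1 P = Complex.I • (-w ^ 2 + (expSeries - 1 - u)) := by
  simp only [P, Derivation.leibniz_pow, D1_v, D1_w, D1_u, D1_exp, map_add, map_sub, Derivation.map_smul,
    Derivation.leibniz, Derivation.map_one_eq_zero]
  simp
  rw [two_mul u]
  module

theorem D2_P : pderiv ℂ 2 P = 2 * v * w := by
  simp [P, Derivation.leibniz_pow, D2_v, D2_w, D2_u, D2_exp]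
  ring

theorem D3_P : pderiv ℂ 3 P = Complex.I • (2 * v * w) := by
  simp [P, Derivation.leibniz_pow, D3_v, D3_w, D3_u, D3_exp]
  ring_nf


theorem I_smul (g : MvPowerSeries (Fin 4) ℂ) : Complex.I • g = C Complex.I * g :=
  smul_eq_C_mul _ _

theorem J_sq : (C Complex.I : MvPowerSeries (Fin 4) ℂ) ^ 2 = -1 := by
  rw [← map_pow, Complex.I_sq, map_neg, map_one]

theorem hess : (Matrix.of fun i j : Fin 4 => pderiv ℂ i (pderiv ℂ j P)) =
    !![expSeries - 1, C Complex.I * (expSeries - 1), 2 * w, C Complex.I * (2 * w);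
       C Complex.I * (expSeries - 1), -(expSeries - 1), -(C Complex.I * (2 * w)), 2 * w;
       2 * w, -(C Complex.I * (2 * w)), 2 * v, C Complex.I * (2 * v);
       C Complex.I * (2 * w), 2 * w, C Complex.I * (2 * v), -(2 * v)] := by
  have hJ := J_sq
  have h2 : ∀ i : Fin 4, pderiv ℂ i (2 : MvPowerSeries (Fin 4) ℂ) = 0 := by
    intro i
    have : (2 : MvPowerSeries (Fin 4) ℂ) = C 2 := (map_ofNat C 2).symm
    rw [this, pderiv_C]
  apply Matrix.ext
  intro i j
  fin_cases i <;> fin_cases j <;>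
    simp [D0_P, D1_P, D2_P, D3_P, Derivation.leibniz, Derivation.leibniz_pow, D0_v, D0_w, D0_u,
      D0_exp, D1_v, D1_w, D1_u, D1_exp, D2_v, D2_w, D2_u, D2_exp, D3_v, D3_w, D3_u, D3_exp,
      I_smul, h2] <;> (try ring_nf) <;> (try simp only [hJ]) <;> (try ring_nf)


theorem hess_sq (F w v J : MvPowerSeries (Fin 4) ℂ) (hJ : J ^ 2 = -1) :
    ((!![F, J * F, 2 * w, J * (2 * w);
       J * F, -F, -(J * (2 * w)), 2 * w;
       2 * w, -(J * (2 * w)), 2 * v, J * (2 * v);
       J * (2 * w), 2 * w, J * (2 * v), -(2 * v)] :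
       Matrix (Fin 4) (Fin 4) (MvPowerSeries (Fin 4) ℂ)) ^ 2) ^ 2 = 0 := by
  have hJ3 : J ^ 3 = -J := by rw [pow_succ, hJ]; ring
  have hJ4 : J ^ 4 = 1 := by rw [show J ^ 4 = (J ^ 2) ^ 2 by ring, hJ]; ring
  have h2 : (!![F, J * F, 2 * w, J * (2 * w);
       J * F, -F, -(J * (2 * w)), 2 * w;
       2 * w, -(J * (2 * w)), 2 * v, J * (2 * v);
       J * (2 * w), 2 * w, J * (2 * v), -(2 * v)] :
       Matrix (Fin 4) (Fin 4) (MvPowerSeries (Fin 4) ℂ)) ^ 2 =
       !![0, 0, 4 * w * F, J * (4 * w * F);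
         0, 0, J * (4 * w * F), -(4 * w * F);
         4 * w * F, J * (4 * w * F), 0, 0;
         J * (4 * w * F), -(4 * w * F), 0, 0] := by
    rw [pow_two]
    apply Matrix.ext
    intro i j
    rw [Matrix.mul_apply, Fin.sum_univ_four]
    fin_cases i <;> fin_cases j <;> simp <;> ring_nf <;> simp only [hJ, hJ3, hJ4] <;> ring_nf
  rw [h2, pow_two]
  apply Matrix.ext
  intro i j
  rw [Matrix.mul_apply, Fin.sum_univ_four]
  fin_cases i <;> fin_cases j <;> simp <;> ring_nf <;> simp only [hJ, hJ3, hJ4] <;> ring_nf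

theorem isHN : IsHessianNilpotent P := by
  refine ⟨2 * 2, ?_⟩
  rw [hess, pow_mul]
  exact hess_sq _ _ _ _ J_sq


theorem const_exp : coeff 0 expSeries = 1 := by
  rw [coeff_exp]; simp

theorem const_u : coeff 0 u = 0 := by simp [u]
theorem const_v : coeff 0 v = 0 := by simp [v]
theorem const_w : coeff 0 w = 0 := by simp [w]

/-- `P` has no terms of degree at most two. -/
theorem order_P : 3 ≤ P.order := by
  have e1 : constantCoeff expSeries = 1 := by rw [← coeff_zero_eq_constantCoeff_apply, const_exp]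
  have u1 : constantCoeff u = 0 := by rw [← coeff_zero_eq_constantCoeff_apply, const_u]
  have v1 : constantCoeff v = 0 := by rw [← coeff_zero_eq_constantCoeff_apply, const_v]
  have w1 : constantCoeff w = 0 := by rw [← coeff_zero_eq_constantCoeff_apply, const_w]
  have c0 : coeff 0 P = 0 := by
    rw [coeff_zero_eq_constantCoeff_apply]
    simp [P, e1, u1, v1, w1, smul_eq_C_mul]
  have c1 : ∀ i, coeff 0 (pderiv ℂ i P) = 0 := by
    intro i
    rw [coeff_zero_eq_constantCoeff_apply]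
    fin_cases i <;> simp [D0_P, D1_P, D2_P, D3_P, e1, u1, v1, w1, smul_eq_C_mul]
  have c2 : ∀ i j, coeff 0 (pderiv ℂ i (pderiv ℂ j P)) = 0 := by
    intro i j
    have h := congrFun (congrFun hess i) j
    rw [Matrix.of_apply] at h
    rw [coeff_zero_eq_constantCoeff_apply, h]
    fin_cases i <;> fin_cases j <;> simp [e1, v1, w1]
  suffices h : ∀ d : Fin 4 →₀ ℕ, degree d < 3 → coeff d P = 0 by
    have h' : ((3 : ℕ) : ℕ∞) ≤ P.order := nat_le_order (fun d hd => h d hd)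
    exact_mod_cast h'
  intro d hd
  have split : ∀ n : Fin 4 →₀ ℕ, n ≠ 0 → ∃ i, ∃ n', n = n' + single i 1 ∧
      degree n = degree n' + 1 := by
    intro n hn
    obtain ⟨i, hi⟩ := Finsupp.ne_iff.1 hn
    have h1 : single i 1 ≤ n := by
      rw [Finsupp.single_le_iff]
      exact Nat.one_le_iff_ne_zero.2 hi
    refine ⟨i, n - single i 1, (tsub_add_cancel_of_le h1).symm, ?_⟩
    have h2 := congrArg degree (tsub_add_cancel_of_le h1)
    rw [map_add, degree_single] at h2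
    exact h2.symm
  have key1 : ∀ (i : Fin 4) (f : MvPowerSeries (Fin 4) ℂ), coeff 0 (pderiv ℂ i f) = 0 →
      coeff (0 + single i 1) f = 0 := by
    intro i f h
    rw [coeff_pderiv] at h
    simpa using h
  by_cases h0 : d = 0
  · rw [h0, c0]
  obtain ⟨i, d1, rfl, hd1⟩ := split d h0
  by_cases h1 : d1 = 0
  · rw [h1]
    exact key1 i P (c1 i)
  obtain ⟨j, d2, rfl, hd2⟩ := split d1 h1
  have h2 : d2 = 0 := by
    rw [← degree_eq_zero_iff]
    omega
  rw [h2]
  have h3 := key1 j (pderiv ℂ i P) (c2 j i)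
  rw [coeff_pderiv] at h3
  rcases mul_eq_zero.1 h3 with h | h
  · exact h
  · exact absurd h (Nat.cast_add_one_ne_zero _)

/-- `P` is not a polynomial. -/
theorem not_poly (p : MvPolynomial (Fin 4) ℂ) : (p : MvPowerSeries (Fin 4) ℂ) ≠ P := by
  intro h
  have h3 : pderiv ℂ 0 (pderiv ℂ 0 (pderiv ℂ 0 P)) = expSeries := by
    have h1 : pderiv ℂ 0 (pderiv ℂ 0 P) = expSeries - 1 := by
      have := congrFun (congrFun hess 0) 0
      simpa using this
    rw [h1]
    simp [D0_exp]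
  rw [← h, pderiv_coe, pderiv_coe, pderiv_coe] at h3
  set q := MvPolynomial.pderiv 0 (MvPolynomial.pderiv 0 (MvPolynomial.pderiv 0 p)) with hq
  have h4 : MvPolynomial.coeff (single 0 (q.totalDegree + 1)) q = 0 := by
    apply MvPolynomial.coeff_eq_zero_of_totalDegree_lt
    rw [Finsupp.support_single_ne_zero _ (Nat.succ_ne_zero _)]
    simp
  rw [← MvPolynomial.coeff_coe, h3, coeff_exp] at h4
  simp at h4
  exact absurd h4 (Nat.factorial_ne_zero _)

/-- The explicit non-polynomial power series `P` (in four variables, of order at least three) is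
Hessian nilpotent, and `Δ ^ m (P ^ (m + 1)) ≠ 0` for every `m ≥ 3`. -/
theorem result : IsHessianNilpotent P ∧
    (∀ p : MvPolynomial (Fin 4) ℂ, (p : MvPowerSeries (Fin 4) ℂ) ≠ P) ∧
    3 ≤ P.order ∧
    ∀ m : ℕ, 3 ≤ m → (laplace^[m]) (P ^ (m + 1)) ≠ 0 :=
  ⟨isHN, not_poly, order_P, nonvanishing⟩

end Pool.Agent.Results.MP_03a7fb_al.HessianNilpotent
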